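import Pool.Agent.Zk28.TF.Inf

/-!
# Tensors with values in arbitrarily large multiples of the log canonical divisor

Let `X` be a compact complex manifold of dimension `n ≥ 1` which is bimeromorphic to a projective
manifold, for instance a projective manifold, let `Δ` be a divisor with real coefficients in `[0, 1]`,
for instance `Δ = 0`, and let `G` be a set of automorphisms of `X` in codimension one which preserve `Δ`.

Theorem. Suppose that for one degree `p ≥ 1` there are arbitrarily large rational numbers `r` for which
the pair has a nonzero multivalued adapted tensor of degree `p` with values in `r (K_X + Δ)`. Then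
`κ(X, K_X + Δ) ≥ 0`, or `G` preserves a non-trivial fibration `X ⇢ Z`, `0 < dim Z < dim X`.

(A multivalued adapted tensor is a section of the `p`-th tensor power of the cotangent bundle of the
orbifold `(X, Δ)` with values in `r (K_X + Δ)`, on a finite covering of `X`.)

The hypothesis is the one of Lazic and Peternell. They proved that it implies `κ(X, K_X + Δ) ≥ 0` for
pseudo-effective `K_X + Δ`, if minimal models exist in lower dimensions. By Demailly, Peternell and
Schneider, it is satisfied for instance if `Δ = 0`, `χ(X, O_X)` is not zero and `K_X` has a smooth metric
of semipositive curvature. Here no conjecture is assumed, and `K_X + Δ` need not be pseudo-effective.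
The theorem gives nonvanishing for all these pairs for which the birational automorphisms are primitive:
they do not preserve a non-trivial fibration. (If `κ(X, K_X + Δ)` is finite and not `0` or `n` then the
Iitaka fibration is an invariant non-trivial fibration.)

The function-field language of the starting repository is used. `K` is the function field of `X`, the
prime divisors of `X` are places `P` of `K` (`Place`, `Divisorial`), `P.ord` is the order along `P`, and
`X` is given by the set of its prime divisors. The divisor `Δ` is given by its coefficients `δ P`, and
`K_X` is the divisor `k` of a rational `n`-form `ω`. A fibration is given by the function field `E` of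
its base, a subfield of `K` which is algebraically closed in `K`.

Proof. Let `W` be the smallest span, over the field of the algebraic functions, of all the tensors of
degree `p` with values in `r (K_X + Δ)`, `r > r₀`, for varying `r₀`. Its determinant is a multivalued
tensor, and the bases of `W` which consist of such tensors give effective divisors `E_1, E_2, ...` with
classes `Q_i (K_X + Δ) - D`, `Q_1 < Q_2 < ...`, and tensors with values in `Q_i (K_X + Δ)` which vanish
along `E_i`. Three such divisors, the middle one being rigid, are on a line, so that if all of them are
rigid a multiple of `K_X + Δ` is effective. If one of them moves, and `κ(X, K_X + Δ) = -∞`, then there is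
a degree order of the divisor classes for which `K_X + Δ` is negative and an invariant foliation the
slopes of which are at least a positive multiple of `E_i`, so that the images of its leaves under the
maps given by the multiples of `E_i` are algebraic. Either the Iitaka fibration of `E_i` or the fibration
given by the first integrals of the foliation is non-trivial.
-/

set_option autoImplicit false

open FF Pool.Agent.W602.GT Pool.Agent.Zk28.TS Pool.Agent.Zk28.TF

namespace Pool.Agent.Results.MP_813db1_ag.InfinitelyManyTwists

/-- **Tensors with values in arbitrarily large multiples of `K_X + Δ`.** Let `X` be a variety of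
dimension `n ≥ 1` with function field `K`, given by the set of its prime divisors, `Δ` a boundary with
coefficients `δ P` in `[0, 1]`, `k` the divisor of a nonzero rational `n`-form `ω`, and `G` a set of
birational automorphisms of `X` preserving `Δ`. Suppose that for one `p > 0` and for arbitrarily large
rational numbers `r` there is a nonzero multivalued adapted tensor of degree `p` with values in
`r (K_X + Δ)`. Then a positive multiple of `K_X + Δ` has a nonzero section, or `G` preserves a
non-trivial fibration. -/
theorem result (n : ℕ) (hn : 1 ≤ n) (K : Type) [Field K] [Algebra ℂ K]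
    [Algebra.EssFiniteType ℂ K] (htr : Algebra.trdeg ℂ K = n) (X : Set (Place ℂ K))
    (δ : Place ℂ K → ℝ) (hδ : ∀ P ∈ X, 0 ≤ δ P ∧ δ P ≤ 1)
    (ω : (Fin n → Derivation ℂ K K) → K) (hω : IsPluri 1 ω) (hω0 : ∃ D, ω D ≠ 0)
    (k : Place ℂ K → ℤ) (hk : DivOf n X ω k) (G : Set (K ≃ₐ[ℂ] K))
    (hG : ∀ σ ∈ G, ∀ P ∈ X, ∃ Q ∈ X, δ Q = δ P ∧ ∀ f, Q.ord (σ f) = P.ord f)
    (p : ℕ) (hp : 0 < p)
    (hr : ∀ r₀ : ℚ, ∃ r : ℚ, r₀ < r ∧ ∃ t : MTensor K (Fin p),
      MAdapted n X δ (fun P => r * (k P + δ P)) t ∧ t ≠ 0) :
    (∃ N : ℕ, 0 < N ∧ ∃ η : (Fin n → Derivation ℂ K K) → K,
      IsSection n X δ N η ∧ ∃ D, η D ≠ 0) ∨ PreservesFibration G := by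
  by_contra hcon
  push Not at hcon
  refine hcon.2 (infinitely_many hn htr hδ hω hω0 hk (fun σ hσ P hPX => ?_) ?_ hp hr)
  · obtain ⟨Q, hQX, hQδ, hQ⟩ := hG σ hσ P hPX
    exact ⟨Q, hQX, hQδ, rfl, hQ⟩
  · rintro ⟨N, hN, η, hη, D, hD⟩
    exact hD (hcon.1 N hN η hη D)

end Pool.Agent.Results.MP_813db1_ag.InfinitelyManyTwists
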