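import Pool.Agent.Zk28.TF.Full

/-!
# Manifolds with at least `n ^ p` tensors of degree `p`

Let `X` be a compact complex manifold of dimension `n ≥ 1` which is bimeromorphic to a projective
manifold, for instance a projective manifold, let `Δ` be a divisor with real coefficients in `[0, 1]`,
for instance `Δ = 0`, and let `G` be a set of bimeromorphic automorphisms of `X` which preserve `Δ`, for
instance the full group.

Theorem. Let `p ≥ 1` and let `r > - p / n` be a rational number. If the pair has at least `n ^ p`
linearly independent multivalued adapted tensors of degree `p` with values in `r (K_X + Δ)` then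
`κ(X, K_X + Δ) ≥ 0`, or `G` preserves a non-trivial fibration `X ⇢ Z`, `0 < dim Z < dim X`. The same is
true if there are such tensors, in any number, which are linearly independent over `ℂ` and linearly
dependent over the field of the algebraic functions on `X`.

(A multivalued adapted tensor is, for `Δ = 0`, a section of the `p`-th tensor power of the cotangent
bundle with values in `r K_X` on `X` or on a finite étale covering of `X`. For `r = 0` holomorphic forms
and symmetric differentials are examples. By the second part more symmetric differentials than the
binomial coefficient of `n + p - 1` and `p` are sufficient, and more `p`-forms than that of `n` and `p`.)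

So `κ(X) ≥ 0` if the bimeromorphic automorphisms of `X` are primitive (they do not preserve a non-trivial
fibration) and one of the tensor bundles with values in `r K_X` has as many independent sections as its
rank. The existence of minimal models is not used, and one twist `r` is sufficient, which may be `0` or
negative.

The function-field language of the starting repository is used. `K` is the field of meromorphic
functions of `X`, the prime divisors of `X` are places `P` of `K` (`Place`, `Divisorial`), `P.ord` is the
order along `P`, and `X` is given by the set of its prime divisors. The divisor `Δ` is given by its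
coefficients `δ P`, and `K_X` is the divisor `k` of a meromorphic `n`-form `ω`. A fibration is given by
the function field `E` of its base, a subfield of `K` which is algebraically closed in `K`.

Proof. A nonconstant coefficient of a relation between the tensors gives a moving divisor `E` with an
invariant class and a tensor with values in a multiple of `K_X + Δ` which vanishes along `E`. If
`κ(X, K_X + Δ) = -∞` then there is a degree order of the divisor classes for which `K_X + Δ` is negative
and an invariant foliation the slopes of which are at least a positive multiple of `E`, so that the
images of its leaves under the maps given by the multiples of `E` are algebraic. Either the Iitaka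
fibration of `E` or the fibration given by the first integrals of the foliation is non-trivial. If there
are no relations then there are at most `n ^ p` tensors, and the determinant of `n ^ p` tensors is a
section of a positive multiple of `K_X + Δ`.
-/

set_option autoImplicit false

open FF Pool.Agent.W602.GT Pool.Agent.Zk28.TS Pool.Agent.Zk28.TF

namespace Pool.Agent.Results.MP_813db1_ag.ManyTensors

/-- **Pairs with many tensors.** Let `X` be a variety of dimension `n ≥ 1` with function field `K`,
given by the set of its prime divisors, `Δ` a boundary with coefficients `δ P` in `[0, 1]`, `k` the
divisor of a nonzero rational `n`-form `ω`, and `G` a set of birational automorphisms of `X` preserving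
`Δ`. Suppose that no positive multiple of `K_X + Δ` has a nonzero section and that `G` preserves no
non-trivial fibration. Let `p > 0` and let `r > - p / n` be a rational number. Then `ℂ`-linearly
independent multivalued adapted tensors of degree `p` with values in `r (K_X + Δ)` are linearly
independent over the field of the algebraic functions, and there are less than `n ^ p` of them. -/
theorem result (n : ℕ) (hn : 1 ≤ n) (K : Type) [Field K] [Algebra ℂ K]
    [Algebra.EssFiniteType ℂ K] (htr : Algebra.trdeg ℂ K = n) (X : Set (Place ℂ K))
    (δ : Place ℂ K → ℝ) (hδ : ∀ P ∈ X, 0 ≤ δ P ∧ δ P ≤ 1)
    (ω : (Fin n → Derivation ℂ K K) → K) (hω : IsPluri 1 ω) (hω0 : ∃ D, ω D ≠ 0)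
    (k : Place ℂ K → ℤ) (hk : DivOf n X ω k) (G : Set (K ≃ₐ[ℂ] K))
    (hG : ∀ σ ∈ G, ∀ P ∈ X, ∃ Q ∈ X, δ Q = δ P ∧ ∀ f, Q.ord (σ f) = P.ord f)
    (hno : ¬ ∃ N : ℕ, 0 < N ∧ ∃ η : (Fin n → Derivation ℂ K K) → K,
      IsSection n X δ N η ∧ ∃ D, η D ≠ 0) (hfib : ¬ PreservesFibration G)
    (p : ℕ) (hp : 0 < p) (r : ℚ) (hr : -(p / n : ℚ) < r) (N : ℕ) (t : Fin N → MTensor K (Fin p))
    (ht : ∀ j, MAdapted n X δ (fun P => r * (k P + δ P)) (t j)) (hti : LinearIndependent ℂ t) :
    LinearIndependent (AlgebraicClosure K) t ∧ N < n ^ p := by
  have h1 : LinearIndependent (AlgebraicClosure K) t :=
    numeric hn htr hδ hω hω0 hk (fun σ hσ P hPX => by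
      obtain ⟨Q, hQX, hQδ, hQ⟩ := hG σ hσ P hPX
      exact ⟨Q, hQX, hQδ, rfl, hQ⟩) hno hfib hp hr ht hti
  refine ⟨h1, lt_of_le_of_ne ?_ fun hN => hno (full_rank hn htr hδ hω hω0 hk hp hr hN ht h1)⟩
  have h2 := finite_MTensor (K := K) (n := n) (p := p) htr
  have := h2.1
  have h3 := h1.fintype_card_le_finrank
  rw [Fintype.card_fin] at h3
  exact h3.trans h2.2

end Pool.Agent.Results.MP_813db1_ag.ManyTensors
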