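import Pool.Agent.Zk28.TF.OrderA

/-!
# Tensors on a manifold of Kodaira dimension `-∞` define a proper foliation

Let `X` be a compact complex manifold of dimension `n ≥ 1` which is bimeromorphic to a projective
manifold, for instance a projective manifold, let `Δ` be a divisor with real coefficients in `[0, 1]`,
for instance `Δ = 0`, let `B` be a real divisor, for instance `B = 0`, let `G` be a set of bimeromorphic
automorphisms of `X` which preserve `Δ` and `B`, for instance the full group, and let
`L = K_X + Δ + B`, for instance `L = K_X`.

Let `(X, Δ)` have a nonzero multivalued adapted tensor of degree `p ≥ 1` with values in `(p / n) B + r L`,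
for a rational number `r > - p / n`. (For `B = 0` it is a section of the `p`-th tensor power of the
cotangent bundle of the orbifold `(X, Δ)` with values in `r (K_X + Δ)`, on a finite covering: for
instance a holomorphic form or a symmetric differential, `r = 0`.) Let `λ` be the supremum of `r / p` for
all these tensors, of all degrees; `λ` is infinite in the situation of Lazic and Peternell, where there
are tensors of one degree with values in infinitely many positive multiples of `K_X + Δ`.

Theorem. If `κ(X, L) = -∞` then there is a `G`-invariant distribution `F` on `X`, different from `0` and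
from the tangent bundle, such that for all `m ≥ 1` and all rational numbers `q` with
`- q / m < (1 + λ) / (n - 1)` there is no nonzero multivalued leafwise adapted tensor of degree `m` on `F`
with values in `(m / n) B + q L`. If `λ` is infinite there is none for all `m ≥ 1` and all rational `q`,
positive or negative. If `B ≥ 0` then `F` is a foliation: it is closed under the Lie bracket.

So the more tensors a counterexample of the nonvanishing conjecture has, the more negative is its
foliation. For `λ` infinite Lazic and Peternell proved `κ(X, K_X + Δ) ≥ 0` for pseudo-effective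
`K_X + Δ`, under the hypothesis that minimal models exist in lower dimensions; by Demailly, Peternell
and Schneider `λ` is infinite for instance if `Δ = 0`, `χ(X, O_X)` is not zero and `K_X` has a smooth
metric of semipositive curvature. The theorem has no hypothesis of this kind. It gives `κ(X) ≥ 0` unless
the bimeromorphic automorphisms preserve such a foliation.

The function-field language of the starting repository is used. `K` is the field of meromorphic
functions of `X`, the prime divisors of `X` are places `P` of `K` (`Place`, `Divisorial`), `P.ord` is the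
order along `P`, and `X` is given by the set of its prime divisors. The divisors `Δ` and `B` are given by
their coefficients `δ P` and `β P`, and `K_X` is the divisor `k` of a meromorphic `n`-form `ω`.

Proof. The divisors modulo principal divisors get a total preorder, compatible with addition, in which
effective divisors are nonnegative and `L` is negative. For this order the determinants of the
`G`-invariant distributions with their orbifold structure have a Harder-Narasimhan theory: the function
`c_1(V) - (rank V) (B + t L) / n` is supermodular and has a smallest maximum `V_t`, for all rational `t`.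
A tensor gives, by the theory of optimal destabilizing flags (Kempf), a relation between `L` and
determinants of proper invariant distributions; it implies that `V_t` is not zero if
`- t / n < (1 + λ) / (n - 1)`. The `V_t` increase with `t`, and `F` is the smallest of them. The curvature
`F × F → T / F` of `F`, if it is not zero, and a leafwise tensor on `F` contradict the maximality in the
same way.
-/

set_option autoImplicit false

open FF Pool.Agent.W602.GT Pool.Agent.Zk28.TS Pool.Agent.Zk28.TF

namespace Pool.Agent.Results.MP_813db1_ag.ProperFoliation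

/-- The pair `(X, Δ)` has a nonzero multivalued adapted tensor of degree `p > 0` with values in
`(p / n) B + r L`, `r > - p / n`, where `L = K_X + Δ + B` and `K_X` is the divisor `k`. -/
def HasTensor {K : Type} [Field K] [Algebra ℂ K] (n : ℕ) (X : Set (Place ℂ K))
    (δ β : Place ℂ K → ℝ) (k : Place ℂ K → ℤ) (p : ℕ) (r : ℚ) : Prop :=
  0 < p ∧ -(p / n : ℚ) < r ∧
    ∃ s : MultilinearMap K (fun _ : Fin p => (⊤ : Submodule K (Derivation ℂ K K)))
        (AlgebraicClosure K),
      LeafAdapted n X δ (fun P => (p : ℝ) / n * β P + r * (k P + δ P + β P)) ⊤ s ∧ s ≠ 0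

/-- **The proper foliation.** Let `X` be a variety of dimension `n ≥ 1` with function field `K`, given
by the set of its prime divisors, `Δ` a boundary with coefficients `δ P` in `[0, 1]`, `B` a divisor with
real coefficients `β P`, `k` the divisor of a nonzero rational `n`-form `ω`, and `G` a set of birational
automorphisms of `X` preserving `Δ` and `B`. Suppose that no positive multiple of `L = K_X + Δ + B` has a
nonzero section, but that there is a nonzero adapted tensor of some degree `p0 > 0` with values in
`(p0 / n) B + r0 L`, `r0 > - p0 / n`. Then there is a distribution `F`, not zero and not the tangent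
bundle, invariant under `G`, and closed under the Lie bracket if `B ≥ 0`, such that all multivalued
leafwise adapted tensors of degree `m > 0` on `F` with values in `(m / n) B + q L` are zero if
`- (n - 1) q / m < 1 + r / p` for some `p`, `r` such that there is a nonzero adapted tensor of degree `p`
with values in `(p / n) B + r L`. -/
theorem result (n : ℕ) (hn : 1 ≤ n) (K : Type) [Field K] [Algebra ℂ K]
    [Algebra.EssFiniteType ℂ K] (htr : Algebra.trdeg ℂ K = n) (X : Set (Place ℂ K))
    (δ β : Place ℂ K → ℝ) (hδ : ∀ P ∈ X, 0 ≤ δ P ∧ δ P ≤ 1)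
    (ω : (Fin n → Derivation ℂ K K) → K) (hω : IsPluri 1 ω) (hω0 : ∃ D, ω D ≠ 0)
    (k : Place ℂ K → ℤ) (hk : DivOf n X ω k) (G : Set (K ≃ₐ[ℂ] K))
    (hG : ∀ σ ∈ G, MPreserves X δ β σ)
    (hno : ¬ ∃ N : ℕ, 0 < N ∧ ∃ η : (Fin n → Derivation ℂ K K) → K,
      IsSection n X (fun P => δ P + β P) N η ∧ ∃ D, η D ≠ 0)
    (p0 : ℕ) (r0 : ℚ) (hT : HasTensor n X δ β k p0 r0) :
    ∃ F : Submodule K (Derivation ℂ K K), F ≠ ⊥ ∧ F ≠ ⊤ ∧
      ((∀ P ∈ X, 0 ≤ β P) → ∀ D ∈ F, ∀ E ∈ F, ⁅D, E⁆ ∈ F) ∧
      (∀ σ ∈ G, ∀ D ∈ F, ∀ E, Image σ D E → E ∈ F) ∧
      ∀ m : ℕ, 0 < m → ∀ q : ℚ, (∃ p r, HasTensor n X δ β k p r ∧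
        -((n - 1) * (q / m)) < 1 + r / p) →
        ∀ s : MultilinearMap K (fun _ : Fin m => F) (AlgebraicClosure K),
          LeafAdapted n X δ (fun P => (m : ℝ) / n * β P + q * (k P + δ P + β P)) F s → s = 0 := by
  obtain ⟨Pos, hPos, hL⟩ := (exists_degreeOrder hn htr hδ hω hω0 hk).mp hno
  obtain ⟨F, h0, h1, h2, h3⟩ := order_main hn htr hδ hω hω0 hk hG hPos hL
  have hinv : ∀ (m : ℕ) (q : ℚ), InvariantClass n X G
      (fun P => (m : ℝ) / n * β P + q * (k P + δ P + β P)) := by
    intro m q σ hσ
    obtain ⟨z, hz, hzk⟩ := exists_factor htr hω hω0 hk σ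
    refine ⟨q.den, q.den_pos, z ^ q.num, zpow_ne_zero _ hz, fun P hPX hP Q hQX hQ hPQ => ?_⟩
    obtain ⟨Q', hQ'X, hδ', hβ', hQ'⟩ := hG σ hσ P hPX
    have hQQ : Q' = Q := by
      apply Place.ext
      funext f
      have h4 := hQ' (σ.symm f)
      have h5 := hPQ (σ.symm f)
      rw [AlgEquiv.apply_symm_apply] at h4 h5
      rw [h4, h5]
    subst hQQ
    have h4 : (k Q' : ℝ) = k P + P.ord z := by
      rw [hzk P hPX hP Q' hQX hQ hPQ]
      push_cast
      rfl
    beta_reduce
    rw [hβ', hδ', h4, P.ord_zpow]
    have h6 : (q.den : ℝ) * q = q.num := by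
      have h7 : (q : ℝ) = q.num / q.den := by exact_mod_cast (Rat.num_div_den q).symm
      have h8 : (q.den : ℝ) ≠ 0 := by exact_mod_cast q.den_pos.ne'
      rw [h7]
      field_simp
    push_cast
    rw [← h6]
    ring
  have hvan : ∀ m : ℕ, 0 < m → ∀ q : ℚ, (∃ p r, HasTensor n X δ β k p r ∧
        -((n - 1) * (q / m)) < 1 + r / p) →
        ∀ s : MultilinearMap K (fun _ : Fin m => F) (AlgebraicClosure K),
          LeafAdapted n X δ (fun P => (m : ℝ) / n * β P + q * (k P + δ P + β P)) F s → s = 0 := by
    rintro m hm q ⟨p, r, ⟨hp, hr, s', hs', hs0'⟩, hpr⟩ s hs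
    have hpq : (0 : ℚ) < p := by exact_mod_cast hp
    have hmq : (0 : ℚ) < m := by exact_mod_cast hm
    refine h3 m hm q (Or.inr ⟨p, hp, r, hr, ?_, s', hs', hs0'⟩) _ (hinv m q) ?_ s hs
    · have h4 := mul_lt_mul_of_pos_right hpr (mul_pos hmq hpq)
      have h5 : -(((n : ℚ) - 1) * (q / m)) * (m * p) = -((n - 1) * q * p) := by field_simp
      have h6 : (1 + r / p) * (m * p) = m * (p + r) := by field_simp
      rw [h5, h6] at h4
      exact h4
    · refine hPos.effective _ fun P _ _ => ?_
      rw [sub_self]
  refine ⟨F, h0, ?_, fun hβ => h1 (hPos.effective _ fun P hPX _ => hβ P hPX), h2, hvan⟩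
  rintro rfl
  obtain ⟨hp, hr, s, hs, hs0⟩ := id hT
  refine hs0 (hvan p0 hp r0 ⟨p0, r0, hT, ?_⟩ s hs)
  have hpq : (0 : ℚ) < p0 := by exact_mod_cast hp
  have hnq : (0 : ℚ) < n := by exact_mod_cast hn
  have h4 : -1 < r0 / p0 * n := by
    have h5 := mul_lt_mul_of_pos_right hr (div_pos hnq hpq)
    have h6 : -(p0 / n : ℚ) * (n / p0) = -1 := by field_simp
    have h7 : r0 * (n / p0) = r0 / p0 * n := by field_simp
    rw [h6, h7] at h5
    exact h5
  linarith

end Pool.Agent.Results.MP_813db1_ag.ProperFoliation
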