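import Pool.Agent.Zk28.TF.EffQ

/-!
# Uniform non-vanishing: a pluricanonical section of bounded weight, or an invariant flag

Let `X` be a compact complex manifold of dimension `n ≥ 1` which is bimeromorphic to a projective
manifold (a Moishezon manifold, for instance a projective manifold), and let `G` be a set of bimeromorphic
automorphisms of `X` which permute the prime divisors of `X`, for instance the group of all
automorphisms, or, if all prime divisors over `X` are admitted, of all bimeromorphic automorphisms.
Let `m ≥ 1` and let `q > - m / n` be an integer. A weighted flag of distributions on `X` is given by a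
frame `b 1, ..., b n` of meromorphic vector fields and integral weights `w 1, ..., w n` with sum `0`; the
distributions of the flag are spanned by the `b i` with `w i ≤ t`. It destabilizes a section `s` of
`(Ω¹) ^ (⊗ m) ⊗ q K_X` if all nonzero values `s (b (I 1), ..., b (I m))` have positive weight
`w (I 1) + ... + w (I m)`.

Theorem. For all `n`, `m`, `q` there are numbers `N` and `W`, which depend only on `n`, `m` and `q` (and
not on `X` and `G`), such that for all `X` and `G` at least one of the following holds.
* `H⁰(X, N K_X) ≠ 0`.
* There is a `G`-invariant weighted flag of distributions on `X`, with integral weights of absolute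
  value at most `W`, which destabilizes all holomorphic sections of `(Ω¹) ^ (⊗ m) ⊗ q K_X`.

For instance let `X` have a nonzero section of `(Ω¹) ^ (⊗ m) ⊗ q K_X` (a symmetric differential, a
holomorphic form, or for `q > 0` a form with values in a pluricanonical bundle), and suppose that no
distribution on `X` except `0` and the tangent bundle is invariant under the bimeromorphic automorphisms.
Then `H⁰(X, N K_X) ≠ 0`, where `N` depends only on `n`, `m` and `q`.

The function-field language of the starting repository is used. `K` is the field of meromorphic
functions of `X`, the prime divisors of `X` are places `P` of `K` (`Place`, `Divisorial`), `P.ord` is the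
order along `P`, and `X` is given by the set of its prime divisors; `K_X` is the divisor `k` of a
meromorphic `n`-form `ω`.

Proof. The relative invariants of the general linear group, evaluated at such tensors, are
pluricanonical sections. The ideals generated by the invariants of positive weight in the polynomial
ring of the coordinates of `n ^ m` tensors are finitely generated, and therefore invariants of bounded
weight suffice. If they vanish then by the criterion of Hilbert and Mumford the tensors are
destabilized, and Kempf's optimal flag is defined over the function field, invariant, and its weights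
depend only on the pattern of the nonzero values, so there are finitely many possible weights.
-/

set_option autoImplicit false

open FF Pool.Agent.W602.GT Pool.Agent.Zk28.TS Pool.Agent.Zk28.TF

namespace Pool.Agent.Results.MP_813db1_ag.UniformTensors

/-- `η` is a section of `N K_X`: an `N`-canonical form whose values on vector fields which are regular
at `P` are regular at `P`, for all prime divisors `P` of `X`. -/
def PluriSection {K : Type} [Field K] [Algebra ℂ K] (n : ℕ) (X : Set (Place ℂ K)) (N : ℕ)
    (η : (Fin n → Derivation ℂ K K) → K) : Prop :=
  IsPluri N η ∧ ∀ P ∈ X, Divisorial n P → ∀ D : Fin n → Derivation ℂ K K,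
    (∀ i, DerReg P (D i)) → η D = 0 ∨ 0 ≤ P.ord (η D)

/-- `s`, a multilinear function of `m` meromorphic vector fields, is a section of
`(Ω¹) ^ (⊗ m) ⊗ q K_X`, where `K_X` is the divisor `k`: its values on vector fields which are regular at
`P` have order at least `- q k P` at `P`, for all prime divisors `P` of `X`. -/
def TwistedTensor {K : Type} [Field K] [Algebra ℂ K] (n : ℕ) (X : Set (Place ℂ K))
    (k : Place ℂ K → ℤ) (q : ℤ) {m : ℕ} (s : STensor K (Fin m)) : Prop :=
  ∀ P ∈ X, Divisorial n P → ∀ D : Fin m → Derivation ℂ K K,
    (∀ a, DerReg P (D a)) → s D = 0 ∨ -(q * k P) ≤ P.ord (s D)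

/-- The automorphism `σ` of the function field maps the prime divisors of `X` to prime divisors of
`X`. -/
def PermutesDivisors {K : Type} [Field K] [Algebra ℂ K] (X : Set (Place ℂ K))
    (σ : K ≃ₐ[ℂ] K) : Prop := ∀ P ∈ X, ∃ Q ∈ X, ∀ f, Q.ord (σ f) = P.ord f

/-- **Uniform non-vanishing.** For all `n`, `m ≥ 1` and all integers `q > - m / n` there are numbers
`N > 0` and `W` with the following property. Let `X` be a variety of dimension `n` with function field
`K`, given by the set of its prime divisors, `k` the divisor of a nonzero rational `n`-form `ω`, and `G`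
a set of birational automorphisms of `X` which permute its prime divisors. Then `N K_X` has a nonzero
section, or there is a `G`-invariant weighted flag of distributions with integral weights of sum `0` and
of absolute value at most `W` which destabilizes all sections of `(Ω¹) ^ (⊗ m) ⊗ q K_X`. -/
theorem result (n m : ℕ) (q : ℤ) (hn : 1 ≤ n) (hm : 1 ≤ m) (hq : -(m : ℤ) < n * q) :
    ∃ (N : ℕ) (W : ℤ), 0 < N ∧
    ∀ (K : Type) [Field K] [Algebra ℂ K] [Algebra.EssFiniteType ℂ K], Algebra.trdeg ℂ K = n →
    ∀ (X : Set (Place ℂ K)) (ω : (Fin n → Derivation ℂ K K) → K), IsPluri 1 ω →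
    (∃ D, ω D ≠ 0) → ∀ k : Place ℂ K → ℤ, DivOf n X ω k →
    ∀ G : Set (K ≃ₐ[ℂ] K), (∀ σ ∈ G, PermutesDivisors X σ) →
      (∃ η : (Fin n → Derivation ℂ K K) → K, PluriSection n X N η ∧ ∃ D, η D ≠ 0) ∨
      ∃ (b : Fin n → Derivation ℂ K K) (w : Fin n → ℤ), LinearIndependent K b ∧
        ∑ i, w i = 0 ∧ (∀ i, |w i| ≤ W) ∧ InvariantFlag G b (fun i => (w i : ℝ)) ∧
        ∀ s : STensor K (Fin m), TwistedTensor n X k q s →
          ∀ I : Fin m → Fin n, s (fun a => b (I a)) ≠ 0 → 0 < ∑ a, w (I a) := by
  obtain ⟨N, W, hN, h⟩ := effective_q n m q hn hm hq
  refine ⟨N, W, hN, ?_⟩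
  intro K _ _ _ htr X ω hω hω0 k hk G hG
  by_contra hno
  push Not at hno
  obtain ⟨h1, h2⟩ := hno
  obtain ⟨η, hη, D, hD⟩ := h K htr X (fun _ => 0) (fun _ _ => le_rfl) ω hω hω0 k hk G
    (fun σ hσ P hP => by
      obtain ⟨Q, hQ, hQP⟩ := hG σ hσ P hP
      exact ⟨Q, hQ, rfl, rfl, hQP⟩)
    fun b hb w hw hsum hinv => by
      obtain ⟨s, hs, I, hI, hI'⟩ := h2 b w hb hsum hw hinv
      refine ⟨s, fun P hPX hP D hD => ?_, I, hI, hI'⟩
      rcases hs P hPX hP D hD with h3 | h3
      · exact Or.inl h3
      · right
        have h4 : ((-(q * k P) : ℤ) : ℝ) ≤ P.ord (s D) := by exact_mod_cast h3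
        push_cast at h4
        simp only [mul_zero, add_zero, zero_add]
        exact h4
  refine hD (h1 η ⟨hη.1, fun P hPX hP D hD => ?_⟩ D)
  rcases hη.2 P hPX hP D hD with h3 | h3
  · exact Or.inl h3
  · right
    rw [mul_zero, neg_zero] at h3
    exact_mod_cast h3

end Pool.Agent.Results.MP_813db1_ag.UniformTensors
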